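import Pool.Agent.H47.KS.Targets

/-!
# Row CEL of ksu_modules: few elements in every short interval (helper79)
-/

set_option autoImplicit false

namespace Pool.Agent.H79.KSU

open Finset Pool.Agent.H37.SP Pool.Agent.H47.KS

theorem pf_CEL : T_CEL := by
  intro l w lo Y hl hY hz
  have hcov : Y ⊆ (range (w / l + 1)).biUnion fun i =>
      Y.filter fun y => lo + ((i * l : ℕ) : ℤ) ≤ y ∧ y < lo + ((i * l : ℕ) : ℤ) + l := by
    intro y hy
    obtain ⟨h1, h2⟩ := hY y hy
    obtain ⟨a, ha⟩ := Int.eq_ofNat_of_zero_le (show 0 ≤ y - lo by omega)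
    have haw : a < w := by omega
    rw [mem_biUnion]
    refine ⟨a / l, ?_, ?_⟩
    · rw [mem_range]
      exact Nat.lt_succ_of_le (Nat.div_le_div_right haw.le)
    · rw [mem_filter]
      refine ⟨hy, ?_⟩
      have h3 := Nat.div_mul_le_self a l
      have h4 : a < a / l * l + l := by
        have h5 := Nat.mod_lt a hl
        have h6 := Nat.div_add_mod a l
        rw [mul_comm] at h6
        omega
      constructor
      · have : ((a / l * l : ℕ) : ℤ) ≤ (a : ℤ) := by exact_mod_cast h3
        omega
      · have : (a : ℤ) < ((a / l * l : ℕ) : ℤ) + (l : ℤ) := by exact_mod_cast h4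
        omega
  have h1 : Y.card ≤ ∑ i ∈ range (w / l + 1),
      (Y.filter fun y => lo + ((i * l : ℕ) : ℤ) ≤ y ∧ y < lo + ((i * l : ℕ) : ℤ) + l).card :=
    (card_le_card hcov).trans card_biUnion_le
  have h2 : 300 * Y.card ≤ ∑ i ∈ range (w / l + 1), l := by
    refine (Nat.mul_le_mul_left 300 h1).trans ?_
    rw [mul_sum]
    exact sum_le_sum fun i _ => hz _
  rw [sum_const, card_range, smul_eq_mul] at h2
  have h3 : (w / l + 1) * l ≤ w + l := by
    rw [add_mul, one_mul]
    exact Nat.add_le_add_right (Nat.div_mul_le_self w l) l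
  exact h2.trans h3

end Pool.Agent.H79.KSU
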