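import Pool.Agent.H47.KS.Targets

/-!
# Row LCK of ksu_modules: a good index makes the degrees almost constant (helper79)
-/

set_option autoImplicit false

namespace Pool.Agent.H79.KSU

open Finset Pool.Agent.H37.SP Pool.Agent.H47.KS

theorem pf_LCK (hAPR : T_APR) (hAE : T_AE) (hWL : T_WL) : T_LCK := by
  intro P N G C K I X wK wI i hOk hB hXC hXn hi1 hi2 hgood F hFI hFc
  have hn : P.n = 8 * P.nu := rfl
  have hE : P.E = (2 * P.n + 1) * P.x0 := rfl
  have hN1 := hOk.N1
  have hnu := hOk.nu1
  have hxnu := hOk.xnu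
  have hin : i ≤ P.n := by omega
  have hKc := hB.cK
  refine hAE N K (fun a => dg G F a - dg G X a) (-(P.n : ℤ)) (2 * P.n + 1) P.x0 ?_ ?_ ?_
  · intro a _
    have h1 := dg_nonneg G F a
    have h2 := dg_le G F a
    have h3 := dg_nonneg G X a
    have h4 := dg_le G X a
    rw [hFc] at h2
    rw [hXn] at h4
    push_cast
    constructor <;> omega
  · rw [← hE, hKc]
    omega
  · rintro z z' hz ⟨h1, h2⟩
    apply hgood
    have hdg : ∀ a ∈ K, dg G ((C \ X) ∪ F) a = wK + (dg G F a - dg G X a) := by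
      intro a ha
      have hd : Disjoint (C \ X) F :=
        (hB.dIC.symm.mono_left sdiff_subset).mono_right hFI
      rw [dg_union G hd, dg_sdiff G hXC, hB.wtK a ha]
      ring
    have hf : ∀ w : ℤ, (K.filter (fun a => dg G ((C \ X) ∪ F) a = wK + w)) =
        K.filter (fun a => dg G F a - dg G X a = w) := by
      intro w
      refine filter_congr ?_
      intro a ha
      rw [hdg a ha]
      constructor
      · intro h
        omega
      · intro h
        omega
    have hdis : Disjoint ((C \ X) ∪ F) K := by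
      rw [disjoint_union_left]
      exact ⟨hB.dKC.symm.mono_left sdiff_subset, hB.dKI.symm.mono_left hFI⟩
    obtain ⟨b, g, hg, hprog⟩ := hAPR N G ((C \ X) ∪ F) K (P.n - i) P.x0 1 (wK + z) (wK + z') hdis
      hB.clq (by omega) (by omega) (by omega) (by rw [hf]; exact h1) (by rw [hf]; exact h2)
    refine ⟨b, g, hg, ?_⟩
    intro y hy
    obtain ⟨Q, hQK, hQc, hQe⟩ := hprog y hy
    have hset : ((C \ X) ∪ F) ∪ Q = (C \ X) ∪ (Q ∪ F) := by
      rw [union_assoc, union_comm F Q]
    rw [hset] at hQe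
    obtain ⟨hw1, hw2⟩ := hWL P N G C K I X Q F wK wI i hOk hB hXC hXn hin hQK hFI hQc hFc
    refine ⟨⟨_, hw1, hQe⟩, ?_⟩
    rw [← hQe]
    exact hw2

end Pool.Agent.H79.KSU
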