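import Pool.Agent.H47.KS.Targets

/-!
# Row CSR of ksu_modules: small gap, rich (helper79)
-/

set_option autoImplicit false

namespace Pool.Agent.H79.KSU

open Finset Pool.Agent.H37.SP Pool.Agent.H47.KS

lemma lt_abs_sum {ι : Type} (A : Finset ι) (f : ι → ℤ) (g : ℤ) (hg : 0 ≤ g) (hA : A.Nonempty)
    (h : (∀ x ∈ A, g < f x) ∨ ∀ x ∈ A, f x < -g) : g < |∑ x ∈ A, f x| := by
  obtain ⟨x, hx⟩ := hA
  rcases h with h | h
  · have h1 : f x ≤ ∑ y ∈ A, f y := single_le_sum (fun y hy => by have := h y hy; omega) hx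
    have h2 := h x hx
    have h3 := le_abs_self (∑ y ∈ A, f y)
    omega
  · have h1 : -f x ≤ ∑ y ∈ A, -f y :=
      single_le_sum (f := fun y => -f y) (fun y hy => by have := h y hy; omega) hx
    rw [sum_neg_distrib] at h1
    have h2 := h x hx
    have h3 := neg_le_abs (∑ y ∈ A, f y)
    omega

/-- initial segments of a set -/
lemma segs {N : ℕ} (Y : Finset (Fin N)) (n : ℕ) (hY : Y.card = n) :
    ∃ X : ℕ → Finset (Fin N), (∀ j, X j ⊆ Y) ∧ (∀ j, j ≤ n → (X j).card = j) ∧
      ∀ i j, i ≤ j → X i ⊆ X j := by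
  classical
  let e : Y ≃ Fin n := Y.equivFinOfCardEq hY
  let m : Fin n ↪ Fin N := e.symm.toEmbedding.trans (Function.Embedding.subtype _)
  refine ⟨fun j => (univ.filter fun a : Fin n => a.val < j).map m, ?_, ?_, ?_⟩
  · intro j x hx
    rw [mem_map] at hx
    obtain ⟨a, _, rfl⟩ := hx
    exact (e.symm a).2
  · intro j hj
    rw [card_map]
    have h1 : (univ.filter fun a : Fin n => a.val < j).map Fin.valEmbedding = range j := by
      ext x
      rw [mem_map, mem_range]
      constructor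
      · rintro ⟨a, ha, rfl⟩
        exact (mem_filter.1 ha).2
      · intro hx
        exact ⟨⟨x, by omega⟩, mem_filter.2 ⟨mem_univ _, hx⟩, rfl⟩
    rw [← card_map Fin.valEmbedding, h1, card_range]
  · intro i j hij
    refine map_subset_map.2 ?_
    intro a ha
    rw [mem_filter] at ha ⊢
    exact ⟨ha.1, ha.2.trans_le hij⟩

theorem pf_CSR (hCS1 : T_CS1) : T_CSR := by
  classical
  intro P N G C K I wK wI hOk hB hgap
  have hn : P.n = 8 * P.nu := rfl
  have hg1 : P.g1 = 2 * P.H := rfl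
  have hCk := hB.cC
  set φ : Fin N → ℤ := fun x => wK - dg G C x with hφ
  by_cases hFl : P.n ≤ (C.filter fun x => |φ x| ≤ (P.g1 : ℤ)).card
  · right
    obtain ⟨X, hX, hXc⟩ := exists_subset_card_eq hFl
    obtain ⟨b, g, c, hc, hcard, hz⟩ := hCS1 P N G C K I X wK wI hOk hB hgap
      (hX.trans (filter_subset _ _)) (by omega) hXc.le
    refine ⟨prog b g c P.x0, ⟨fun _ => b, fun _ => g, fun _ => c, fun _ => hc, by simp⟩, ?_, ?_⟩
    · intro z hzT
      obtain ⟨h1, h2, h3⟩ := hz z hzT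
      refine ⟨h1, ?_⟩
      have h4 : |∑ x ∈ X, φ x| ≤ (P.n : ℤ) * P.g1 := by
        refine (abs_sum_le_sum_abs _ _).trans ?_
        refine (sum_le_card_nsmul _ _ (P.g1 : ℤ) ?_).trans ?_
        · intro x hx
          exact (mem_filter.1 (hX hx)).2
        · rw [hXc, nsmul_eq_mul]
      have h5 : (P.n : ℤ) * P.g1 + P.H ≤ P.L2 := by exact_mod_cast hOk.L2
      have h6 : |z - ee G C| ≤ |z - (ee G C + ∑ x ∈ X, φ x)| + |∑ x ∈ X, φ x| := by
        have h7 := abs_add_le (z - (ee G C + ∑ x ∈ X, φ x)) (∑ x ∈ X, φ x)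
        have h8 : z - (ee G C + ∑ x ∈ X, φ x) + ∑ x ∈ X, φ x = z - ee G C := by ring
        rw [h8] at h7
        exact h7
      have h9 : |z - (ee G C + ∑ x ∈ X, φ x)| ≤ (P.H : ℤ) := h2
      omega
    · have := hOk.t2
      omega
  · left
    push Not at hFl
    obtain ⟨Y, hYC, hYc, hYs⟩ : ∃ Y ⊆ C, Y.card = P.n ∧
        ((∀ x ∈ Y, (P.g1 : ℤ) < φ x) ∨ ∀ x ∈ Y, φ x < -(P.g1 : ℤ)) := by
      have h1 : C ⊆ (C.filter fun x => |φ x| ≤ (P.g1 : ℤ)) ∪
          ((C.filter fun x => (P.g1 : ℤ) < φ x) ∪ (C.filter fun x => φ x < -(P.g1 : ℤ))) := by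
        intro x hx
        rw [mem_union, mem_union, mem_filter, mem_filter, mem_filter]
        by_cases h2 : |φ x| ≤ (P.g1 : ℤ)
        · exact Or.inl ⟨hx, h2⟩
        · right
          rcases lt_abs.1 (not_le.1 h2) with h3 | h3
          · exact Or.inl ⟨hx, h3⟩
          · exact Or.inr ⟨hx, by omega⟩
      have h2 := card_le_card h1
      have h3 := card_union_le (C.filter fun x => |φ x| ≤ (P.g1 : ℤ))
        ((C.filter fun x => (P.g1 : ℤ) < φ x) ∪ (C.filter fun x => φ x < -(P.g1 : ℤ)))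
      have h4 := card_union_le (C.filter fun x => (P.g1 : ℤ) < φ x)
        (C.filter fun x => φ x < -(P.g1 : ℤ))
      have h5 := hOk.kN
      have h6 : P.n ≤ (C.filter fun x => (P.g1 : ℤ) < φ x).card ∨
          P.n ≤ (C.filter fun x => φ x < -(P.g1 : ℤ)).card := by omega
      rcases h6 with h6 | h6
      · obtain ⟨Y, hY, hYc⟩ := exists_subset_card_eq h6
        exact ⟨Y, hY.trans (filter_subset _ _), hYc,
          Or.inl fun x hx => (mem_filter.1 (hY hx)).2⟩
      · obtain ⟨Y, hY, hYc⟩ := exists_subset_card_eq h6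
        exact ⟨Y, hY.trans (filter_subset _ _), hYc,
          Or.inr fun x hx => (mem_filter.1 (hY hx)).2⟩
    obtain ⟨X, hXY, hXc, hXm⟩ := segs Y P.n hYc
    have hj : ∀ i : Fin P.nu, 4 * P.nu + i.val ≤ P.n := by
      intro i
      have := i.2
      omega
    have hex : ∀ i : Fin P.nu, ∃ b g c : ℤ, |c| ≤ 1 ∧ P.x0 ≤ 2 * (prog b g c P.x0).card ∧
        ∀ z ∈ prog b g c P.x0, z ∈ SS P.k G ∧
          |z - (ee G C + ∑ x ∈ X (4 * P.nu + i.val), φ x)| ≤ (P.H : ℤ) ∧
          |z - ee G C| ≤ ((P.n * P.k : ℕ) : ℤ) := by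
      intro i
      have h1 := hXc _ (hj i)
      exact hCS1 P N G C K I (X (4 * P.nu + i.val)) wK wI hOk hB hgap ((hXY _).trans hYC)
        (by omega) (by have := hj i; omega)
    choose b g c hc hcard hz using hex
    have hpos : ∀ i i' : Fin P.nu, i.val < i'.val →
        (P.g1 : ℤ) < |∑ x ∈ X (4 * P.nu + i'.val), φ x - ∑ x ∈ X (4 * P.nu + i.val), φ x| := by
      intro i i' hii
      have hsub : X (4 * P.nu + i.val) ⊆ X (4 * P.nu + i'.val) := hXm _ _ (by omega)
      have h1 := sum_sdiff (f := φ) hsub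
      have h2 : ∑ x ∈ X (4 * P.nu + i'.val), φ x - ∑ x ∈ X (4 * P.nu + i.val), φ x =
          ∑ x ∈ X (4 * P.nu + i'.val) \ X (4 * P.nu + i.val), φ x := by
        rw [← h1]
        ring
      rw [h2]
      refine lt_abs_sum _ φ _ (Int.natCast_nonneg _) ?_ ?_
      · rw [← card_pos, card_sdiff_of_subset hsub, hXc _ (hj i), hXc _ (hj i')]
        omega
      · rcases hYs with h | h
        · exact Or.inl fun x hx => h x (hXY _ (mem_sdiff.1 hx).1)
        · exact Or.inr fun x hx => h x (hXY _ (mem_sdiff.1 hx).1)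
    have hdis : ∀ i i' : Fin P.nu, i ≠ i' →
        Disjoint (prog (b i) (g i) (c i) P.x0) (prog (b i') (g i') (c i') P.x0) := by
      have hlt : ∀ i i' : Fin P.nu, i.val < i'.val →
          Disjoint (prog (b i) (g i) (c i) P.x0) (prog (b i') (g i') (c i') P.x0) := by
        intro i i' hii
        rw [disjoint_left]
        intro z hz1 hz2
        have h1 := (hz i z hz1).2.1
        have h2 := (hz i' z hz2).2.1
        have h3 := hpos i i' hii
        rw [abs_le] at h1 h2
        rw [lt_abs] at h3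
        omega
      intro i i' hne
      rcases lt_or_gt_of_ne (fun h => hne (Fin.ext h) : i.val ≠ i'.val) with h | h
      · exact hlt i i' h
      · exact (hlt i' i h).symm
    refine ⟨(univ : Finset (Fin P.nu)).biUnion (fun i => prog (b i) (g i) (c i) P.x0),
      Or.inr (Or.inl ⟨b, g, c, hc, rfl⟩), ?_, ?_⟩
    · intro z hzT
      rw [mem_biUnion] at hzT
      obtain ⟨i, _, hi⟩ := hzT
      obtain ⟨h1, h2, h3⟩ := hz i z hi
      refine ⟨h1, h3.trans ?_⟩
      have h4 := hOk.L1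
      have h5 : P.n * P.k ≤ P.L1 := by
        have : P.n * P.k ≤ 4 * P.n * P.k := by
          rw [mul_assoc]
          omega
        exact this.trans h4
      exact_mod_cast h5
    · rw [card_biUnion fun i _ i' _ h => hdis i i' h]
      have h1 : P.nu * P.x0 ≤ 2 * ∑ i : Fin P.nu, (prog (b i) (g i) (c i) P.x0).card := by
        rw [mul_sum]
        calc P.nu * P.x0 = ∑ i : Fin P.nu, P.x0 := by simp
          _ ≤ _ := sum_le_sum fun i _ => hcard i
      have h2 := hOk.tx
      omega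

end Pool.Agent.H79.KSU
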